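import Pool.Agent.HM13.PC.Defs
import Pool.Agent.H620R2.Gauge.A1
import Pool.Agent.H620R2.Gauge.C
import Pool.Agent.H620R2.Gauge.Upper

/-!
# Promise classes: presentations
-/

set_option autoImplicit false

namespace Pool.Agent.HM13.PC

open Pool.Agent.NPC Pool.Agent.H620R2.Gauge Pool.Agent.TH678.GC

/-- the string `w` is an accepted witness for `y` -/
def Ans (A : Oracle) (M : Alg) (p : Polynomial ℕ) (y w : List Bool) : Prop :=
  w.length ≤ p.eval y.length ∧ M.out A (pairBits w y) = some [true]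

/-- the string `y` is accepted -/
def Acc (A : Oracle) (M : Alg) (p : Polynomial ℕ) (y : List Bool) : Prop := ∃ w, Ans A M p y w

/-- presentations of disjoint `NP` pairs, disjoint `coNP` pairs, and `UP` languages -/
inductive Cls : Type
  | np (M₁ M₂ : Alg) (p₁ p₂ : Polynomial ℕ) : Cls
  | co (M₁ M₂ : Alg) (p₁ p₂ : Polynomial ℕ) : Cls
  | up (M : Alg) (p : Polynomial ℕ) : Cls

/-- the promise -/
def Cls.Hold (A : Oracle) : Cls → Prop
  | .np M₁ M₂ p₁ p₂ => ∀ y, ¬ (Acc A M₁ p₁ y ∧ Acc A M₂ p₂ y)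
  | .co M₁ M₂ p₁ p₂ => ∀ y, Acc A M₁ p₁ y ∨ Acc A M₂ p₂ y
  | .up M _ => ∀ y w w' : List Bool, M.out A (pairBits w y) = some [true] →
      M.out A (pairBits w' y) = some [true] → w = w'

/-- the answer `b` to the question `y` is admissible -/
def Cls.Sep (A : Oracle) (y : List Bool) (b : Bool) : Cls → Prop
  | .np M₁ M₂ p₁ p₂ => (b = true → ¬ Acc A M₂ p₂ y) ∧ (b = false → ¬ Acc A M₁ p₁ y)
  | .co M₁ M₂ p₁ p₂ => (b = true → Acc A M₂ p₂ y) ∧ (b = false → Acc A M₁ p₁ y)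
  | .up M p => b = true ↔ Acc A M p y

theorem Cls.exists_sep {A : Oracle} {c : Cls} (h : c.Hold A) (y : List Bool) :
    ∃ b : Bool, c.Sep A y b := by
  classical
  cases c with
  | np M₁ M₂ p₁ p₂ =>
    by_cases h1 : Acc A M₁ p₁ y
    · exact ⟨true, fun _ h2 => h y ⟨h1, h2⟩, fun h2 => absurd h2 (by simp)⟩
    · exact ⟨false, fun h2 => absurd h2 (by simp), fun _ => h1⟩
  | co M₁ M₂ p₁ p₂ =>
    rcases h y with h1 | h1
    · exact ⟨false, fun h2 => absurd h2 (by simp), fun _ => h1⟩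
    · exact ⟨true, fun _ => h1, fun h2 => absurd h2 (by simp)⟩
  | up M p =>
    by_cases h1 : Acc A M p y
    · exact ⟨true, by simp [Sep, h1]⟩
    · exact ⟨false, by simp [Sep, h1]⟩

/-- bounds for one algorithm -/
theorem exists_bound (M : Alg) (p : Polynomial ℕ) : ∃ r : Polynomial ℕ, ∀ (n : ℕ)
    (A : Oracle) (y w : List Bool), y.length ≤ n → w.length ≤ p.eval y.length →
      ∃ Q : Finset (List Bool), Q.card ≤ r.eval n ∧ (∀ q ∈ Q, q.length ≤ r.eval n) ∧
        ∀ A' : Oracle, (∀ q ∈ Q, A' q = A q) →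
          M.out A' (pairBits w y) = M.out A (pairBits w y) := by
  obtain ⟨qb, hqb⟩ := M.out_local
  set R : Polynomial ℕ := Polynomial.C 2 * p + 1 + Polynomial.X with hR
  have hRe : ∀ n, R.eval n = 2 * p.eval n + 1 + n := fun n => by rw [hR]; simp
  refine ⟨M.p.comp R + qb.comp R, fun n A y w hy hw => ?_⟩
  obtain ⟨Q, h1, h2, h3⟩ := hqb A (pairBits w y)
  have h4 : (pairBits w y).length ≤ R.eval n := by
    rw [length_pairBits, hRe]
    have := eval_mono p hy
    omega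
  have h5 := eval_mono M.p h4
  have h6 := eval_mono qb h4
  refine ⟨Q, ?_, fun q hq => ?_, h3⟩
  · rw [Polynomial.eval_add, Polynomial.eval_comp, Polynomial.eval_comp]
    omega
  · rw [Polynomial.eval_add, Polynomial.eval_comp, Polynomial.eval_comp]
    have := h2 q hq
    omega

/-- the algorithms of a presentation -/
def Cls.algs : Cls → List (Alg × Polynomial ℕ)
  | .np M₁ M₂ p₁ p₂ => [(M₁, p₁), (M₂, p₂)]
  | .co M₁ M₂ p₁ p₂ => [(M₁, p₁), (M₂, p₂)]
  | .up M p => [(M, p)]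

/-- a common bound for all algorithms of a list -/
theorem exists_bound_list : ∀ l : List (Alg × Polynomial ℕ), ∃ r : Polynomial ℕ, ∀ a ∈ l,
    ∀ (n : ℕ) (A : Oracle) (y w : List Bool), y.length ≤ n → w.length ≤ a.2.eval y.length →
      ∃ Q : Finset (List Bool), Q.card ≤ r.eval n ∧ (∀ q ∈ Q, q.length ≤ r.eval n) ∧
        ∀ A' : Oracle, (∀ q ∈ Q, A' q = A q) →
          a.1.out A' (pairBits w y) = a.1.out A (pairBits w y)
  | [] => ⟨0, fun a ha => absurd ha (by simp)⟩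
  | a :: l => by
    obtain ⟨r, hr⟩ := exists_bound_list l
    obtain ⟨r', hr'⟩ := exists_bound a.1 a.2
    refine ⟨r + r', fun a' ha' n A y w hy hw => ?_⟩
    rw [Polynomial.eval_add]
    rcases List.mem_cons.1 ha' with rfl | h
    · obtain ⟨Q, h1, h2, h3⟩ := hr' n A y w hy hw
      exact ⟨Q, by omega, fun q hq => by have := h2 q hq; omega, h3⟩
    · obtain ⟨Q, h1, h2, h3⟩ := hr a' h n A y w hy hw
      exact ⟨Q, by omega, fun q hq => by have := h2 q hq; omega, h3⟩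

/-- `r` bounds the presentation -/
def Cls.Bd (c : Cls) (r : Polynomial ℕ) : Prop := ∀ a ∈ c.algs,
    ∀ (n : ℕ) (A : Oracle) (y w : List Bool), y.length ≤ n → w.length ≤ a.2.eval y.length →
      ∃ Q : Finset (List Bool), Q.card ≤ r.eval n ∧ (∀ q ∈ Q, q.length ≤ r.eval n) ∧
        ∀ A' : Oracle, (∀ q ∈ Q, A' q = A q) →
          a.1.out A' (pairBits w y) = a.1.out A (pairBits w y)

theorem Cls.exists_bd (c : Cls) : ∃ r, c.Bd r := exists_bound_list c.algs

theorem Cls.Bd.acc {c : Cls} {r : Polynomial ℕ} (h : c.Bd r) {M : Alg} {p : Polynomial ℕ}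
    (hM : (M, p) ∈ c.algs) {n : ℕ} {A A' : Oracle}
    (hA : ∀ q : List Bool, q.length ≤ r.eval n → A' q = A q) {y : List Bool} (hy : y.length ≤ n) :
    Acc A' M p y ↔ Acc A M p y := by
  unfold Acc Ans
  refine exists_congr fun w => and_congr_right fun hw => ?_
  obtain ⟨Q, _, h2, h3⟩ := h _ hM n A y w hy hw
  rw [h3 A' fun q hq => hA q (h2 q hq)]

theorem Cls.Bd.sep {c : Cls} {r : Polynomial ℕ} (h : c.Bd r) {n : ℕ} {A A' : Oracle}
    (hA : ∀ q : List Bool, q.length ≤ r.eval n → A' q = A q) {y : List Bool} (hy : y.length ≤ n)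
    (b : Bool) : c.Sep A' y b ↔ c.Sep A y b := by
  cases c with
  | np M₁ M₂ p₁ p₂ =>
    show (_ → _) ∧ _ ↔ (_ → _) ∧ _
    rw [h.acc (M := M₁) (p := p₁) (by simp [algs]) hA hy,
      h.acc (M := M₂) (p := p₂) (by simp [algs]) hA hy]
  | co M₁ M₂ p₁ p₂ =>
    show (_ → _) ∧ _ ↔ (_ → _) ∧ _
    rw [h.acc (M := M₁) (p := p₁) (by simp [algs]) hA hy,
      h.acc (M := M₂) (p := p₂) (by simp [algs]) hA hy]
  | up M p =>
    show (_ ↔ _) ↔ (_ ↔ _)
    rw [h.acc (M := M) (p := p) (by simp [algs]) hA hy]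

/-- **A violation of the promise is finite.** -/
theorem Cls.not_hold {c : Cls} {A : Oracle} (h : ¬ c.Hold A) :
    ∃ N : ℕ, ∀ A' : Oracle, (∀ q : List Bool, q.length ≤ N → A' q = A q) → ¬ c.Hold A' := by
  obtain ⟨r, hr⟩ := c.exists_bd
  cases c with
  | np M₁ M₂ p₁ p₂ =>
    simp only [Hold, not_forall, not_not] at h
    obtain ⟨y, h1⟩ := h
    refine ⟨r.eval y.length, fun A' hA' h2 => h2 y ?_⟩
    rw [hr.acc (M := M₁) (p := p₁) (by simp [algs]) hA' le_rfl,
      hr.acc (M := M₂) (p := p₂) (by simp [algs]) hA' le_rfl]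
    exact h1
  | co M₁ M₂ p₁ p₂ =>
    simp only [Hold, not_forall] at h
    obtain ⟨y, h1⟩ := h
    refine ⟨r.eval y.length, fun A' hA' h2 => h1 ?_⟩
    have h3 := h2 y
    rwa [hr.acc (M := M₁) (p := p₁) (by simp [algs]) hA' le_rfl,
      hr.acc (M := M₂) (p := p₂) (by simp [algs]) hA' le_rfl] at h3
  | up M p =>
    simp only [Hold, not_forall] at h
    obtain ⟨y, w, w', h1, h2, h3⟩ := h
    obtain ⟨qb, hqb⟩ := M.out_local
    obtain ⟨Q, _, h4, h5⟩ := hqb A (pairBits w y)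
    obtain ⟨Q', _, h4', h5'⟩ := hqb A (pairBits w' y)
    refine ⟨qb.eval (pairBits w y).length + qb.eval (pairBits w' y).length, fun A' hA' h6 =>
      h3 (h6 y w w' ?_ ?_)⟩
    · rw [h5 A' fun q hq => hA' q (by have := h4 q hq; omega)]
      exact h1
    · rw [h5' A' fun q hq => hA' q (by have := h4' q hq; omega)]
      exact h2

end Pool.Agent.HM13.PC
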