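import Mathlib

/-!
# Combinatorics of promise classes

`V` is the set of positions of a block of the oracle. All computations see few positions. A block
contains one element `v`; its side is to be found.
-/

set_option autoImplicit false

namespace Pool.Agent.HM13.PC

open Finset

variable {V : Type} [Fintype V] [DecidableEq V]

/-- `f` is determined by at most `T` positions, for every content of the block -/
def Loc (T : ℕ) {γ : Type} (f : (V → Bool) → γ) : Prop :=
  ∀ Z, ∃ Q : Finset V, Q.card ≤ T ∧ ∀ Z', (∀ v ∈ Q, Z' v = Z v) → f Z' = f Z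

/-- the block with one element -/
def one (v : V) : V → Bool := fun u => decide (u = v)

/-- the block with two elements -/
def two (v u : V) : V → Bool := fun x => decide (x = v ∨ x = u)

/-- the empty block -/
def zer : V → Bool := fun _ => false

/-- counting pairs -/
theorem exists_pair {R₁ R₂ : Finset V} {T : ℕ} (Q₁ Q₂ : V → Finset V)
    (h₁ : ∀ v ∈ R₁, (Q₁ v).card ≤ T) (h₂ : ∀ v ∈ R₂, (Q₂ v).card ≤ T)
    (hR₁ : 2 * T < R₁.card) (hR₂ : 2 * T < R₂.card) :
    ∃ v ∈ R₁, ∃ u ∈ R₂, u ∉ Q₁ v ∧ v ∉ Q₂ u := by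
  by_contra hcon
  push Not at hcon
  have h3 : R₁ ×ˢ R₂ ⊆ (R₁.biUnion fun v => (Q₁ v).image fun u => (v, u)) ∪
      (R₂.biUnion fun u => (Q₂ u).image fun v => (v, u)) := by
    rintro ⟨v, u⟩ h
    rw [mem_product] at h
    rw [mem_union]
    by_cases h4 : u ∈ Q₁ v
    · exact Or.inl (mem_biUnion.2 ⟨v, h.1, mem_image.2 ⟨u, h4, rfl⟩⟩)
    · exact Or.inr (mem_biUnion.2 ⟨u, h.2, mem_image.2 ⟨v, hcon v h.1 u h.2 h4, rfl⟩⟩)
  have h4 := (card_le_card h3).trans (card_union_le _ _)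
  rw [card_product] at h4
  have h5 : (R₁.biUnion fun v => (Q₁ v).image fun u => (v, u)).card ≤ R₁.card * T :=
    card_biUnion_le_card_mul _ _ _ fun v hv => card_image_le.trans (h₁ v hv)
  have h6 : (R₂.biUnion fun u => (Q₂ u).image fun v => (v, u)).card ≤ R₂.card * T :=
    card_biUnion_le_card_mul _ _ _ fun v hv => card_image_le.trans (h₂ v hv)
  have h7 : R₁.card * (2 * T + 1) ≤ R₁.card * R₂.card := Nat.mul_le_mul_left _ hR₂
  have h8 : (2 * T + 1) * R₂.card ≤ R₁.card * R₂.card := Nat.mul_le_mul_right _ hR₁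
  nlinarith

section

variable {Y W : Type} {T : ℕ} {N N₁ N₂ : Y → W → (V → Bool) → Prop}

open Classical in
/-- few positions change a positive answer -/
theorem few_of_acc (hN : ∀ y w, Loc T (N y w)) {y : Y} (hy : ∃ w, N y w zer) :
    (univ.filter fun v : V => ¬ ∃ w, N y w (one v)).card ≤ T := by
  obtain ⟨w, hw⟩ := hy
  obtain ⟨Q, hQ, hQ'⟩ := hN y w zer
  refine (card_le_card fun v hv => ?_).trans hQ
  rw [mem_filter] at hv
  by_contra hvQ
  apply hv.2
  refine ⟨w, ?_⟩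
  rw [hQ' (one v) fun u hu => ?_]
  · exact hw
  · unfold one zer
    rw [decide_eq_false_iff_not]
    rintro rfl
    exact hvQ hu

open Classical in
/-- two disjoint `NP` sets -/
theorem few_np (h₁ : ∀ y w, Loc T (N₁ y w)) (h₂ : ∀ y w, Loc T (N₂ y w)) {y : Y}
    (hd : ∀ Z, ¬ ((∃ w, N₁ y w Z) ∧ ∃ w, N₂ y w Z)) :
    (univ.filter fun v : V => ∃ w, N₁ y w (one v)).card ≤ 2 * T ∨
      (univ.filter fun v : V => ∃ w, N₂ y w (one v)).card ≤ 2 * T := by
  by_contra hcon
  push Not at hcon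
  have e1 : ∀ v : V, ∃ Q : Finset V, (∃ w, N₁ y w (one v)) → Q.card ≤ T ∧
      ∀ Z', (∀ u ∈ Q, Z' u = one v u) → ∃ w, N₁ y w Z' := by
    intro v
    by_cases h : ∃ w, N₁ y w (one v)
    · obtain ⟨w, hw⟩ := h
      obtain ⟨Q, hQ, hQ'⟩ := h₁ y w (one v)
      refine ⟨Q, fun _ => ⟨hQ, fun Z' hZ => ⟨w, ?_⟩⟩⟩
      rw [hQ' Z' hZ]
      exact hw
    · exact ⟨∅, fun h' => absurd h' h⟩
  have e2 : ∀ v : V, ∃ Q : Finset V, (∃ w, N₂ y w (one v)) → Q.card ≤ T ∧
      ∀ Z', (∀ u ∈ Q, Z' u = one v u) → ∃ w, N₂ y w Z' := by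
    intro v
    by_cases h : ∃ w, N₂ y w (one v)
    · obtain ⟨w, hw⟩ := h
      obtain ⟨Q, hQ, hQ'⟩ := h₂ y w (one v)
      refine ⟨Q, fun _ => ⟨hQ, fun Z' hZ => ⟨w, ?_⟩⟩⟩
      rw [hQ' Z' hZ]
      exact hw
    · exact ⟨∅, fun h' => absurd h' h⟩
  choose Q₁ hQ₁ using e1
  choose Q₂ hQ₂ using e2
  obtain ⟨v, hv, u, hu, huv, hvu⟩ := exists_pair Q₁ Q₂
    (fun v hv => (hQ₁ v (mem_filter.1 hv).2).1) (fun v hv => (hQ₂ v (mem_filter.1 hv).2).1)
    hcon.1 hcon.2
  refine hd (two v u) ⟨(hQ₁ v (mem_filter.1 hv).2).2 _ fun x hx => ?_,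
    (hQ₂ u (mem_filter.1 hu).2).2 _ fun x hx => ?_⟩
  · unfold two one
    rw [decide_eq_decide]
    refine or_iff_left ?_
    rintro rfl
    exact huv hx
  · unfold two one
    rw [decide_eq_decide]
    refine or_iff_right ?_
    rintro rfl
    exact hvu hx

open Classical in
/-- unambiguous computations -/
theorem few_up (hN : ∀ y w, Loc T (N y w)) {y : Y}
    (hu : ∀ Z w w', N y w Z → N y w' Z → w = w') (hy : ¬ ∃ w, N y w zer) :
    (univ.filter fun v : V => ∃ w, N y w (one v)).card ≤ 3 * T := by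
  set R := univ.filter fun v : V => ∃ w, N y w (one v) with hR
  have e1 : ∀ v : V, ∃ (w : Option W) (Q : Finset V), (v ∈ R → ∃ w', w = some w' ∧
      N y w' (one v) ∧ Q.card ≤ T ∧ ∀ Z', (∀ u ∈ Q, Z' u = one v u) → N y w' Z') := by
    intro v
    by_cases h : ∃ w, N y w (one v)
    · obtain ⟨w, hw⟩ := h
      obtain ⟨Q, hQ, hQ'⟩ := hN y w (one v)
      refine ⟨some w, Q, fun _ => ⟨w, rfl, hw, hQ, fun Z' hZ => ?_⟩⟩
      rw [hQ' Z' hZ]
      exact hw
    · exact ⟨none, ∅, fun h' => absurd (mem_filter.1 h').2 h⟩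
  choose w Q hQ using e1
  -- the same witness
  have e2 : ∀ v : V, ∃ P : Finset V, P.card ≤ T ∧ (v ∈ R → ∀ u ∈ R, w u = w v → u ∈ P) := by
    intro v
    by_cases hv : v ∈ R
    · obtain ⟨w₀, h1, -, -, -⟩ := hQ v hv
      obtain ⟨P, hP, hP'⟩ := hN y w₀ zer
      refine ⟨P, hP, fun _ u hu huv => ?_⟩
      obtain ⟨w₁, h2, h3, -, -⟩ := hQ u hu
      rw [huv, h1, Option.some.injEq] at h2
      subst h2
      by_contra huP
      apply hy
      refine ⟨w₀, ?_⟩
      rw [← hP' (one u) fun x hx => ?_]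
      · exact h3
      · unfold one zer
        rw [decide_eq_false_iff_not]
        rintro rfl
        exact huP hx
    · exact ⟨∅, by simp, fun h => absurd h hv⟩
  choose P hP hP' using e2
  by_contra hcon
  push Not at hcon
  have h3 : R ×ˢ R ⊆ ((R.biUnion fun v => (Q v).image fun u => (v, u)) ∪
      (R.biUnion fun u => (Q u).image fun v => (v, u))) ∪
      (R.biUnion fun v => (P v).image fun u => (v, u)) := by
    rintro ⟨v, u⟩ h
    rw [mem_product] at h
    rw [mem_union, mem_union]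
    by_contra hc
    push Not at hc
    obtain ⟨⟨c1, c2⟩, c3⟩ := hc
    have d1 : u ∉ Q v := fun h4 => c1 (mem_biUnion.2 ⟨v, h.1, mem_image.2 ⟨u, h4, rfl⟩⟩)
    have d2 : v ∉ Q u := fun h4 => c2 (mem_biUnion.2 ⟨u, h.2, mem_image.2 ⟨v, h4, rfl⟩⟩)
    have d3 : u ∉ P v := fun h4 => c3 (mem_biUnion.2 ⟨v, h.1, mem_image.2 ⟨u, h4, rfl⟩⟩)
    obtain ⟨wv, a1, -, -, a4⟩ := hQ v h.1
    obtain ⟨wu, b1, -, -, b4⟩ := hQ u h.2
    have f1 : N y wv (two v u) := a4 _ fun x hx => by
      unfold two one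
      rw [decide_eq_decide]
      refine or_iff_left ?_
      rintro rfl
      exact d1 hx
    have f2 : N y wu (two v u) := b4 _ fun x hx => by
      unfold two one
      rw [decide_eq_decide]
      refine or_iff_right ?_
      rintro rfl
      exact d2 hx
    have f3 := hu _ _ _ f1 f2
    exact d3 (hP' v h.1 u h.2 (by rw [a1, b1, f3]))
  have h4 := (card_le_card h3).trans ((card_union_le _ _).trans
    (Nat.add_le_add_right (card_union_le _ _) _))
  rw [card_product] at h4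
  have g : ∀ v ∈ R, (Q v).card ≤ T := fun v hv => by
    obtain ⟨_, _, _, h, _⟩ := hQ v hv
    exact h
  have h5 : (R.biUnion fun v => (Q v).image fun u => (v, u)).card ≤ R.card * T :=
    card_biUnion_le_card_mul _ _ _ fun v hv => card_image_le.trans (g v hv)
  have h6 : (R.biUnion fun u => (Q u).image fun v => (v, u)).card ≤ R.card * T :=
    card_biUnion_le_card_mul _ _ _ fun v hv => card_image_le.trans (g v hv)
  have h7 : (R.biUnion fun v => (P v).image fun u => (v, u)).card ≤ R.card * T :=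
    card_biUnion_le_card_mul _ _ _ fun v _ => card_image_le.trans (hP v)
  have h8 : R.card * (3 * T + 1) ≤ R.card * R.card := Nat.mul_le_mul_left _ hcon
  nlinarith

end

/-- **The side of the element of the block cannot be found.** `sep Z y b` says that `b` is an
admissible answer to the question `y` if the content of the block is `Z`. -/
theorem exists_bad {Y : Type} [DecidableEq Y] {T B : ℕ} (sep : (V → Bool) → Y → Bool → Prop)
    (G : (V → Bool) → (Y → Bool) → Bool) (U : Set Y)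
    (hS : ∀ y ∈ U, ∃ b : Bool, ∃ E : Finset V, E.card ≤ B ∧ ∀ v ∉ E, sep (one v) y b)
    (hG : ∀ Z S, ∃ (Q : Finset V) (P : Finset Y), Q.card ≤ T ∧ P.card ≤ T ∧ (∀ y ∈ P, y ∈ U) ∧
      ∀ Z' S', (∀ v ∈ Q, Z' v = Z v) → (∀ y ∈ P, S' y = S y) → G Z' S' = G Z S)
    (side : V → Bool) (hside : ∀ c : Bool, T + T * B < (univ.filter fun v => side v = c).card) :
    ∃ (v : V) (P : Finset Y) (S : Y → Bool), (∀ y ∈ P, y ∈ U ∧ sep (one v) y (S y)) ∧
      ∀ S' : Y → Bool, (∀ y ∈ P, S' y = S y) → G (one v) S' ≠ side v := by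
  classical
  have hS' : ∀ y, ∃ (b : Bool) (E : Finset V), y ∈ U → E.card ≤ B ∧ ∀ v ∉ E, sep (one v) y b := by
    intro y
    by_cases hy : y ∈ U
    · obtain ⟨b, E, h⟩ := hS y hy
      exact ⟨b, E, fun _ => h⟩
    · exact ⟨true, ∅, fun h => absurd h hy⟩
  choose S E hE using hS'
  obtain ⟨Q, P, hQ, hP, hPU, hG'⟩ := hG zer S
  have hbad : (Q ∪ P.biUnion E).card ≤ T + T * B := by
    refine (card_union_le _ _).trans (add_le_add hQ ?_)
    refine (card_biUnion_le_card_mul _ _ B fun y hy => (hE y (hPU y hy)).1).trans ?_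
    exact Nat.mul_le_mul_right _ hP
  obtain ⟨v, hv, hvb⟩ := exists_mem_notMem_of_card_lt_card (hbad.trans_lt (hside (!(G zer S))))
  rw [mem_filter] at hv
  rw [mem_union, not_or, mem_biUnion] at hvb
  push Not at hvb
  refine ⟨v, P, S, fun y hy => ⟨hPU y hy, (hE y (hPU y hy)).2 v (hvb.2 y hy)⟩, fun S' hS' => ?_⟩
  rw [hG' (one v) S' (fun u hu => ?_) hS', hv.2]
  · cases G zer S <;> simp
  · unfold one zer
    rw [decide_eq_false_iff_not]
    rintro rfl
    exact hvb.1 hu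

end Pool.Agent.HM13.PC
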