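import Pool.Agent.H620R2.Gauge2.Defs
import Pool.Agent.TH678.GC.Defs

/-!
# Unambiguous nondeterministic polynomial time
-/

set_option autoImplicit false

namespace Pool.Agent.HM13.PC

open Pool.Agent.NPC Pool.Agent.H620R2.Gauge Pool.Agent.TH678.GC

/-- The language `L` is in `UP` relative to `A`: `x` is in `L` if and only if some witness `w` of
polynomially bounded length is accepted by a polynomial-time algorithm with oracle `A`, and no input
has more than one accepted witness. -/
def IsUP (A : Oracle) (L : Set (List Bool)) : Prop :=
  ∃ (V : List Bool → List Bool) (p : Polynomial ℕ), IsFP A V ∧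
    (∀ x, x ∈ L ↔ ∃ w : List Bool, w.length ≤ p.eval x.length ∧ V (pairBits w x) = [true]) ∧
    ∀ x w w' : List Bool, V (pairBits w x) = [true] → V (pairBits w' x) = [true] → w = w'

end Pool.Agent.HM13.PC
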