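import Mathlib

/-!
# Sequences of extensions
-/

set_option autoImplicit false

namespace Pool.Agent.HM13.PC

/-- a sequence of states, each an extension of the former ones, which meets all requirements -/
theorem seq_ext {St : Type} (R : St → St → Prop) (hr : ∀ s, R s s)
    (ht : ∀ s t u, R s t → R t u → R s u) (Q : ℕ → St → Prop) (s₀ : St)
    (step : ∀ j s, ∃ s', R s s' ∧ Q j s') :
    ∃ st : ℕ → St, (∀ i j, i ≤ j → R (st i) (st j)) ∧ ∀ j, Q j (st (j + 1)) := by
  choose f h1 h2 using step
  refine ⟨fun j => Nat.rec s₀ (fun j p => f j p) j, fun i j hij => ?_, fun j => h2 j _⟩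
  induction hij with
  | refl => exact hr _
  | @step k _ ih => exact ht _ _ _ ih (h1 k _)

end Pool.Agent.HM13.PC
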