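import Pool.Agent.HM13.PC.Cls
import Pool.Agent.HM13.PC.Core
import Pool.Agent.HM13.PC.Ext
import Pool.Agent.Y626.WX.Time

/-!
# The oracle
-/

set_option autoImplicit false

namespace Pool.Agent.HM13.PC

open Finset Pool.Agent.NPC Pool.Agent.H620R2.Gauge Pool.Agent.TH678.GC Pool.Agent.TH678.RS
  Pool.Agent.Y626.WX

/-- `s` ones, a zero, and `k` -/
def va (s : ℕ) (k : List Bool) : List Bool := List.replicate s true ++ false :: k

theorem length_va (s : ℕ) (k : List Bool) : (va s k).length = s + 1 + k.length := by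
  simp [va]; omega

theorem va_inj {s s' : ℕ} {k k' : List Bool} (h : va s k = va s' k') : s = s' ∧ k = k' :=
  CC.rep_inj _ _ _ _ h

/-- the contents of the blocks: level, number, string -/
abbrev Cnt : Type := ℕ → ℕ → List Bool → Bool

open Classical in
/-- the oracle of the contents -/
noncomputable def base (κ : Cnt) : Oracle := fun u =>
  decide (∃ s e v, u = va s (va e v) ∧ κ s e v = true)

theorem base_va (κ : Cnt) (s e : ℕ) (v : List Bool) : base κ (va s (va e v)) = κ s e v := by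
  unfold base
  rw [Bool.eq_iff_iff]
  simp only [decide_eq_true_eq]
  constructor
  · rintro ⟨s', e', v', h1, h2⟩
    obtain ⟨rfl, h3⟩ := va_inj h1
    obtain ⟨rfl, rfl⟩ := va_inj h3
    exact h2
  · intro h
    exact ⟨s, e, v, rfl, h⟩

theorem base_congr {κ κ' : Cnt} {n : ℕ} (h : ∀ s < n, κ s = κ' s) {u : List Bool}
    (hu : u.length ≤ n) : base κ u = base κ' u := by
  unfold base
  rw [decide_eq_decide]
  refine exists_congr fun s => exists_congr fun e => exists_congr fun v =>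
    and_congr_right fun hu' => ?_
  rw [h s (by rw [hu', length_va] at hu; omega)]

/-- the oracle with the codes -/
noncomputable def orc (Φ : Oracle → Oracle) (κ : Cnt) : Oracle := join (base κ) (cod Φ (base κ))

variable {g : ℕ → SAlg × Polynomial ℕ} {S : ℕ → Polynomial ℕ} {b : ℕ → ℕ} {Φ : Oracle → Oracle}

theorem orc_congr (hc : Cp g S b Φ) {κ κ' : Cnt} {n : ℕ} (h : ∀ s < n, κ s = κ' s)
    {q : List Bool} (hq : q.length ≤ n) : orc Φ κ q = orc Φ κ' q :=
  loc_emb hc (ℓ := n) (fun _ hu => base_congr h hu) q hq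

/-- the question to the block `e` of level `s` -/
def adr (s e : ℕ) (v : List Bool) : List Bool := false :: va s (va e v)

theorem adr_inj {s s' e e' : ℕ} {v v' : List Bool} (h : adr s e v = adr s' e' v') :
    s = s' ∧ e = e' ∧ v = v' := by
  obtain ⟨h1, h2⟩ := va_inj (List.cons.inj h).2
  obtain ⟨h3, h4⟩ := va_inj h2
  exact ⟨h1, h3, h4⟩

theorem orc_adr (κ : Cnt) (s e : ℕ) (v : List Bool) : orc Φ κ (adr s e v) = κ s e v :=
  base_va κ s e v

/-- positions of the block of level `n` -/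
abbrev Pos (n : ℕ) : Type := Fin (n + 1) → Bool

open Classical in
/-- the content of a block -/
noncomputable def fn (n : ℕ) (Z : Pos n → Bool) : List Bool → Bool := fun u =>
  decide (∃ v : Pos n, u = List.ofFn v ∧ Z v = true)

theorem fn_ofFn {n : ℕ} (Z : Pos n → Bool) (v : Pos n) : fn n Z (List.ofFn v) = Z v := by
  unfold fn
  rw [Bool.eq_iff_iff, decide_eq_true_iff]
  constructor
  · rintro ⟨v', h1, h2⟩
    rwa [List.ofFn_injective h1]
  · intro h
    exact ⟨v, rfl, h⟩

theorem fn_true {n : ℕ} {Z : Pos n → Bool} {u : List Bool} (h : fn n Z u = true) :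
    ∃ v : Pos n, u = List.ofFn v ∧ Z v = true := by
  unfold fn at h
  exact of_decide_eq_true h

/-- the contents with a new block -/
noncomputable def nw (κ : Cnt) (n e : ℕ) (Z : Pos n → Bool) : Cnt :=
  Function.update κ n (Function.update (κ n) e (fn n Z))

theorem nw_lt (κ : Cnt) {n : ℕ} (e : ℕ) (Z : Pos n → Bool) {s : ℕ} (hs : s < n) :
    nw κ n e Z s = κ s := Function.update_of_ne (by omega) _ _

theorem nw_self (κ : Cnt) (n e : ℕ) (Z : Pos n → Bool) : nw κ n e Z n e = fn n Z := by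
  unfold nw
  rw [Function.update_self, Function.update_self]

theorem nw_ne (κ : Cnt) {n e : ℕ} (Z : Pos n → Bool) {s e' : ℕ} (h : s ≠ n ∨ e' ≠ e) :
    nw κ n e Z s e' = κ s e' := by
  unfold nw
  by_cases hs : s = n
  · subst hs
    rw [Function.update_self, Function.update_of_ne (h.resolve_left (by simp))]
  · rw [Function.update_of_ne hs]

theorem base_nw (κ : Cnt) {n e : ℕ} (Z Z' : Pos n → Bool) {u : List Bool}
    (h : ∀ v : Pos n, u ≠ va n (va e (List.ofFn v))) : base (nw κ n e Z) u = base (nw κ n e Z') u := by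
  unfold base
  rw [decide_eq_decide]
  refine exists_congr fun s => exists_congr fun e' => exists_congr fun v =>
    and_congr_right fun hu => ?_
  by_cases hse : s ≠ n ∨ e' ≠ e
  · rw [nw_ne κ Z hse, nw_ne κ Z' hse]
  · push Not at hse
    obtain ⟨rfl, rfl⟩ := hse
    rw [nw_self, nw_self]
    have h1 : ∀ Z'' : Pos s → Bool, ¬ fn s Z'' v = true := by
      intro Z'' h2
      obtain ⟨v', rfl, _⟩ := fn_true h2
      exact h v' hu
    exact ⟨fun h2 => absurd h2 (h1 _), fun h2 => absurd h2 (h1 _)⟩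

/-- **Short questions see one position at most.** -/
theorem orc_nw (hc : Cp g S b Φ) (κ : Cnt) {n T e : ℕ} (hT : ∀ s, n ≤ s → T < s ^ (b s + 1))
    (Z Z' : Pos n → Bool) {q : List Bool} (hq : q.length ≤ T)
    (h : ∀ v : Pos n, q ≠ adr n e (List.ofFn v)) :
    orc Φ (nw κ n e Z) q = orc Φ (nw κ n e Z') q := by
  rcases q with _ | ⟨c, u⟩
  · rfl
  · cases c
    · exact base_nw κ Z Z' fun v hv => h v (by rw [hv]; rfl)
    · exact agree_emb hc hT (fun u hu => base_congr (fun s hs => by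
        rw [nw_lt κ e Z hs, nw_lt κ e Z' hs]) (n := n) (by omega)) _ hq

theorem orc_nw_adr (κ : Cnt) (n e : ℕ) (Z : Pos n → Bool) (v : Pos n) :
    orc Φ (nw κ n e Z) (adr n e (List.ofFn v)) = Z v := by
  rw [orc_adr, nw_self, fn_ofFn]

/-- the positions seen by a set of questions -/
def seen (n e : ℕ) (Q : Finset (List Bool)) : Finset (Pos n) :=
  univ.filter fun v => adr n e (List.ofFn v) ∈ Q

theorem card_seen (n e : ℕ) (Q : Finset (List Bool)) : (seen n e Q).card ≤ Q.card := by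
  refine card_le_card_of_injOn (fun v => adr n e (List.ofFn v)) (fun v hv => ?_)
    fun v _ v' _ h => List.ofFn_injective (adr_inj h).2.2
  exact (mem_filter.1 hv).2

theorem agree_seen (hc : Cp g S b Φ) (κ : Cnt) {n T e : ℕ}
    (hT : ∀ s, n ≤ s → T < s ^ (b s + 1)) (Z Z' : Pos n → Bool) {Q : Finset (List Bool)}
    (hQ : ∀ q ∈ Q, q.length ≤ T) (h : ∀ v ∈ seen n e Q, Z' v = Z v) :
    ∀ q ∈ Q, orc Φ (nw κ n e Z') q = orc Φ (nw κ n e Z) q := by
  intro q hq
  by_cases h1 : ∃ v : Pos n, q = adr n e (List.ofFn v)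
  · obtain ⟨v, rfl⟩ := h1
    rw [orc_nw_adr, orc_nw_adr]
    exact h v (mem_filter.2 ⟨mem_univ _, hq⟩)
  · push Not at h1
    exact orc_nw hc κ hT Z' Z (hQ q hq) h1

/-- the computations of a presentation see few positions -/
theorem loc_ans (hc : Cp g S b Φ) (κ : Cnt) {n T e : ℕ}
    (hT : ∀ s, n ≤ s → T < s ^ (b s + 1)) {c : Cls} {r : Polynomial ℕ} (hr : c.Bd r) {m : ℕ}
    (hm : r.eval m ≤ T) {M : Alg} {p : Polynomial ℕ} (hM : (M, p) ∈ c.algs) {y : List Bool}
    (hy : y.length ≤ m) (w : List Bool) :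
    Loc T (fun Z : Pos n → Bool => Ans (orc Φ (nw κ n e Z)) M p y w) := by
  intro Z
  by_cases hw : w.length ≤ p.eval y.length
  · obtain ⟨Q, h1, h2, h3⟩ := hr _ hM m (orc Φ (nw κ n e Z)) y w hy hw
    refine ⟨seen n e Q, (card_seen n e Q).trans (h1.trans hm), fun Z' hZ => ?_⟩
    have h4 := h3 _ (agree_seen hc κ hT Z Z' (fun q hq => (h2 q hq).trans hm) hZ)
    show (_ ∧ _) = (_ ∧ _)
    rw [h4]
  · refine ⟨∅, by simp, fun Z' _ => ?_⟩
    unfold Ans
    simp [hw]

open Classical in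
/-- **Admissible answers.** If the promise holds for all contents of the block, then some answer is
admissible for almost all positions. -/
theorem admissible (hc : Cp g S b Φ) (κ : Cnt) {n T e : ℕ}
    (hT : ∀ s, n ≤ s → T < s ^ (b s + 1)) {c : Cls} {r : Polynomial ℕ} (hr : c.Bd r) {m : ℕ}
    (hm : r.eval m ≤ T) (hh : ∀ Z : Pos n → Bool, c.Hold (orc Φ (nw κ n e Z))) {y : List Bool}
    (hy : y.length ≤ m) : ∃ a : Bool, ∃ E : Finset (Pos n), E.card ≤ 3 * T ∧
      ∀ v ∉ E, c.Sep (orc Φ (nw κ n e (one v))) y a := by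
  cases c with
  | np M₁ M₂ p₁ p₂ =>
    have key : ∀ (M : Alg) (p : Polynomial ℕ), (M, p) ∈ (Cls.np M₁ M₂ p₁ p₂).algs → ∀ y' w,
        Loc T (fun Z : Pos n → Bool => y'.length ≤ m ∧ Ans (orc Φ (nw κ n e Z)) M p y' w) := by
      intro M p hM y' w Z
      by_cases hy' : y'.length ≤ m
      · obtain ⟨Q, h1, h2⟩ := loc_ans hc κ (e := e) hT hr hm hM hy' w Z
        exact ⟨Q, h1, fun Z' hZ => congrArg (fun t => y'.length ≤ m ∧ t) (h2 Z' hZ)⟩
      · exact ⟨∅, by simp, fun Z' _ => by simp [hy']⟩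
    have hd : ∀ Z : Pos n → Bool,
        ¬ ((∃ w, y.length ≤ m ∧ Ans (orc Φ (nw κ n e Z)) M₁ p₁ y w) ∧
          ∃ w, y.length ≤ m ∧ Ans (orc Φ (nw κ n e Z)) M₂ p₂ y w) := by
      rintro Z ⟨⟨w, _, hw⟩, w', _, hw'⟩
      exact hh Z y ⟨⟨w, hw⟩, w', hw'⟩
    rcases few_np (V := Pos n) (Y := List Bool) (W := List Bool) (T := T)
      (N₁ := fun y' w Z => y'.length ≤ m ∧ Ans (orc Φ (nw κ n e Z)) M₁ p₁ y' w)
      (N₂ := fun y' w Z => y'.length ≤ m ∧ Ans (orc Φ (nw κ n e Z)) M₂ p₂ y' w)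
      (key M₁ p₁ (by simp [Cls.algs])) (key M₂ p₂ (by simp [Cls.algs])) (y := y) hd with h | h
    · refine ⟨false, _, h.trans (by omega), fun v hv => ⟨fun h1 => absurd h1 (by simp),
        fun _ h2 => hv ?_⟩⟩
      rw [mem_filter]
      obtain ⟨w, hw⟩ := h2
      exact ⟨mem_univ _, w, hy, hw⟩
    · refine ⟨true, _, h.trans (by omega), fun v hv => ⟨fun _ h2 => hv ?_,
        fun h1 => absurd h1 (by simp)⟩⟩
      rw [mem_filter]
      obtain ⟨w, hw⟩ := h2
      exact ⟨mem_univ _, w, hy, hw⟩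
  | co M₁ M₂ p₁ p₂ =>
    have key : ∀ (M : Alg) (p : Polynomial ℕ), (M, p) ∈ (Cls.co M₁ M₂ p₁ p₂).algs →
        Acc (orc Φ (nw κ n e zer)) M p y → ∃ E : Finset (Pos n), E.card ≤ 3 * T ∧
          ∀ v ∉ E, Acc (orc Φ (nw κ n e (one v))) M p y := by
      intro M p hM h
      have h1 := few_of_acc (V := Pos n) (Y := List Bool) (W := List Bool) (T := T)
        (N := fun y' w Z => y'.length ≤ m ∧ Ans (orc Φ (nw κ n e Z)) M p y' w)
        (fun y' w Z => by
          by_cases hy' : y'.length ≤ m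
          · obtain ⟨Q, h1, h2⟩ := loc_ans hc κ (e := e) hT hr hm hM hy' w Z
            exact ⟨Q, h1, fun Z' hZ => congrArg (fun t => y'.length ≤ m ∧ t) (h2 Z' hZ)⟩
          · exact ⟨∅, by simp, fun Z' _ => by simp [hy']⟩) (y := y) (by
          obtain ⟨w, hw⟩ := h
          exact ⟨w, hy, hw⟩)
      refine ⟨_, h1.trans (by omega), fun v hv => ?_⟩
      by_contra hcon
      apply hv
      rw [mem_filter]
      refine ⟨mem_univ _, ?_⟩
      rintro ⟨w, _, hw⟩
      exact hcon ⟨w, hw⟩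
    rcases hh zer y with h | h
    · obtain ⟨E, h1, h2⟩ := key M₁ p₁ (by simp [Cls.algs]) h
      exact ⟨false, E, h1, fun v hv => ⟨fun h3 => absurd h3 (by simp), fun _ => h2 v hv⟩⟩
    · obtain ⟨E, h1, h2⟩ := key M₂ p₂ (by simp [Cls.algs]) h
      exact ⟨true, E, h1, fun v hv => ⟨fun _ => h2 v hv, fun h3 => absurd h3 (by simp)⟩⟩
  | up M p =>
    have hloc : ∀ y' w, Loc T (fun Z : Pos n → Bool => y'.length ≤ m ∧
        Ans (orc Φ (nw κ n e Z)) M p y' w) := by
      intro y' w Z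
      by_cases hy' : y'.length ≤ m
      · obtain ⟨Q, h1, h2⟩ := loc_ans hc κ (e := e) hT hr hm (M := M) (p := p)
          (by simp [Cls.algs]) hy' w Z
        exact ⟨Q, h1, fun Z' hZ => congrArg (fun t => y'.length ≤ m ∧ t) (h2 Z' hZ)⟩
      · exact ⟨∅, by simp, fun Z' _ => by simp [hy']⟩
    by_cases h : Acc (orc Φ (nw κ n e zer)) M p y
    · have h1 := few_of_acc (V := Pos n) (Y := List Bool) (W := List Bool) (T := T)
        (N := fun y' w Z => y'.length ≤ m ∧ Ans (orc Φ (nw κ n e Z)) M p y' w) hloc (y := y) (by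
          obtain ⟨w, hw⟩ := h
          exact ⟨w, hy, hw⟩)
      refine ⟨true, _, h1.trans (by omega), fun v hv => ?_⟩
      show true = true ↔ _
      rw [eq_self_iff_true, true_iff]
      by_contra hcon
      apply hv
      rw [mem_filter]
      refine ⟨mem_univ _, ?_⟩
      rintro ⟨w, _, hw⟩
      exact hcon ⟨w, hw⟩
    · have h1 := few_up (V := Pos n) (Y := List Bool) (W := List Bool) (T := T)
        (N := fun y' w Z => y'.length ≤ m ∧ Ans (orc Φ (nw κ n e Z)) M p y' w) hloc (y := y)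
        (fun Z w w' hw hw' => hh Z y w w' hw.2.2 hw'.2.2) (by
          rintro ⟨w, _, hw⟩
          exact h ⟨w, hw⟩)
      refine ⟨false, _, h1, fun v hv => ?_⟩
      show false = true ↔ _
      constructor
      · intro h2
        exact absurd h2 (by simp)
      · rintro ⟨w, hw⟩
        exact absurd (mem_filter.2 ⟨mem_univ _, w, hy, hw⟩) hv

end Pool.Agent.HM13.PC
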