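import Pool.Agent.HM13.PC.Orc
import Pool.Agent.H622R2.Exp.E0

/-!
# One stage of the construction
-/

set_option autoImplicit false

namespace Pool.Agent.HM13.PC

open Finset Filter Pool.Agent.NPC Pool.Agent.H620R2.Gauge Pool.Agent.TH678.GC
  Pool.Agent.TH678.RS Pool.Agent.Y626.WX Pool.Agent.H622R2 Pool.Agent.H622R2.Exp

/-- the block contains exactly one string, of the right length -/
def Gd (s : ℕ) (f : List Bool → Bool) : Prop :=
  ∃ v : List Bool, v.length = s + 1 ∧ ∀ v', f v' = true ↔ v' = v

/-- the language of the sides of the blocks number `e` -/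
def XL (κ : Cnt) (e : ℕ) : Set (List Bool) := {x | ∃ w, κ x.length e (true :: w) = true}

/-- the choice of the numbers -/
theorem sizes {α : ℕ → ℕ} (hα : Monotone α) (hα' : Tendsto α atTop atTop) (τ : Polynomial ℕ)
    (N₀ : ℕ) : ∃ n : ℕ, N₀ ≤ n ∧ τ.eval n + τ.eval n * (3 * τ.eval n) < 2 ^ n ∧
      ∀ s', n ≤ s' → τ.eval n < s' ^ (bt α s' + 1) := by
  obtain ⟨d, _, hd⟩ := YAux.poly_bound τ
  have h1 := E0.poly_le (τ + τ * (Polynomial.C 3 * τ) + 1) 1
  have h2 : ∀ᶠ n : ℕ in atTop, 2 * d ≤ bt α n := by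
    obtain ⟨m, h3, h4⟩ := ((hα'.eventually_ge_atTop (2 * d)).and
      (eventually_ge_atTop (2 * d))).exists
    filter_upwards [eventually_ge_atTop (2 ^ m)] with n hn
    have h5 := bt_mono hα hn
    rw [bt_pow] at h5
    exact (le_min h3 h4).trans h5
  rw [eventually_atTop] at h2
  obtain ⟨n₂, hn₂⟩ := h2
  obtain ⟨n, h3, h4, h5⟩ := (h1.and ((eventually_ge_atTop (max N₀ n₂)).and
    (eventually_ge_atTop 2))).exists
  rw [one_mul] at h3
  simp only [Polynomial.eval_add, Polynomial.eval_mul, Polynomial.eval_C,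
    Polynomial.eval_one] at h3
  refine ⟨n, (le_max_left _ _).trans h4, by omega, ?_⟩
  have hTn : τ.eval n ≤ n ^ (2 * d) := by
    refine (hd n).trans ?_
    rw [pow_mul]
    refine Nat.pow_le_pow_left ?_ d
    nlinarith
  intro s' hs'
  have h6 := hn₂ s' ((le_max_right _ _).trans (h4.trans hs'))
  calc τ.eval n ≤ n ^ (2 * d) := hTn
    _ ≤ s' ^ (2 * d) := Nat.pow_le_pow_left hs' _
    _ < s' ^ (2 * d + 1) := Nat.pow_lt_pow_right (by omega) (by omega)
    _ ≤ s' ^ (bt α s' + 1) := Nat.pow_le_pow_right (by omega) (by omega)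

theorem card_side (n : ℕ) (c : Bool) :
    2 ^ n ≤ (univ.filter fun v : Pos n => v 0 = c).card := by
  have h1 : (univ : Finset (Fin n → Bool)).card ≤
      (univ.filter fun v : Pos n => v 0 = c).card :=
    card_le_card_of_injOn (fun u => Fin.cons c u) (fun u _ => by simp)
      fun u _ u' _ h => (Fin.cons_injective2 h).2
  rwa [card_univ, Fintype.card_fun, Fintype.card_bool, Fintype.card_fin] at h1

variable {g : ℕ → SAlg × Polynomial ℕ} {S : ℕ → Polynomial ℕ} {α : ℕ → ℕ} {Φ : Oracle → Oracle}

theorem gd_one (n : ℕ) (v : Pos n) : Gd n (fn n (one v)) := by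
  refine ⟨List.ofFn v, by simp, fun v' => ⟨fun h => ?_, fun h => ?_⟩⟩
  · obtain ⟨u, rfl, hu⟩ := fn_true h
    unfold one at hu
    rw [of_decide_eq_true hu]
  · rw [h, fn_ofFn]
    simp [one]

/-- **One stage.** `σ` is the part of the separator fixed before. -/
theorem stage (hα : Monotone α) (hα' : Tendsto α atTop atTop) (hc : Cp g S (bt α) Φ) (c : Cls)
    (M : Alg) (e N₀ N₁ : ℕ) (hN₁ : N₀ ≤ N₁) (κ : Cnt) (σ : List Bool → Option Bool)
    (hκ : ∀ s, Gd s (κ s e))
    (hσ : ∀ y a, σ y = some a → ∀ κ'' : Cnt, (∀ s < N₀, κ'' s = κ s) → c.Sep (orc Φ κ'') y a) :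
    ∃ (κ' : Cnt) (N' : ℕ) (σ' : List Bool → Option Bool), N₁ < N' ∧ (∀ s < N₀, κ' s = κ s) ∧
      (∀ s e', e' ≠ e → κ' s e' = κ s e') ∧ (∀ y a, σ y = some a → σ' y = some a) ∧
      ((∀ κ'' : Cnt, (∀ s < N', κ'' s = κ' s) → ¬ c.Hold (orc Φ κ'')) ∨
        (∀ s, Gd s (κ' s e)) ∧
        (∀ y a, σ' y = some a → ∀ κ'' : Cnt, (∀ s < N', κ'' s = κ' s) →
          c.Sep (orc Φ κ'') y a) ∧
        ∀ κ'' : Cnt, (∀ s < N', κ'' s = κ' s) → ∀ S' : Oracle,
          (∀ y a, σ' y = some a → S' y = a) →
          ∃ x, ¬ (x ∈ XL κ'' e ↔ M.out (join (orc Φ κ'') S') x = some [true])) := by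
  classical
  obtain ⟨qb, hqb⟩ := M.out_local
  obtain ⟨r, hr⟩ := c.exists_bd
  obtain ⟨n, hn0, hnum, hT⟩ := sizes hα hα' (M.p + qb + r.comp qb) N₁
  set T := (M.p + qb + r.comp qb).eval n with hTdef
  have hTe : T = M.p.eval n + qb.eval n + r.eval (qb.eval n) := by
    rw [hTdef, Polynomial.eval_add, Polynomial.eval_add, Polynomial.eval_comp]
  set x : List Bool := List.replicate n false with hx
  have hxl : x.length = n := by simp [hx]
  by_cases hZ : ∃ Z : Pos n → Bool, ¬ c.Hold (orc Φ (nw κ n e Z))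
  · obtain ⟨Z, hZ⟩ := hZ
    obtain ⟨N, hN⟩ := Cls.not_hold hZ
    have h1 : ∀ κ'' : Cnt, (∀ s < max N n + 1, κ'' s = nw κ n e Z s) →
        ¬ c.Hold (orc Φ κ'') := by
      intro κ'' hκ''
      refine hN _ fun q hq => orc_congr hc hκ'' ?_
      exact hq.trans ((le_max_left _ _).trans (Nat.le_succ _))
    exact ⟨nw κ n e Z, max N n + 1, σ, by omega, fun s hs => nw_lt κ e Z (by omega),
      fun s e' he => nw_ne κ Z (Or.inr he), fun y a h => h, Or.inl h1⟩
  · push Not at hZ
    obtain ⟨v, P, S₀, h1, h2⟩ := exists_bad (V := Pos n) (Y := List Bool) (T := T) (B := 3 * T)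
      (fun Z y a => (∀ a', σ y = some a' → a = a') ∧ c.Sep (orc Φ (nw κ n e Z)) y a)
      (fun Z S' => decide (M.out (join (orc Φ (nw κ n e Z)) S') x = some [true]))
      {y | y.length ≤ qb.eval n}
      (fun y hy => by
        rcases hσy : σ y with _ | a'
        · obtain ⟨a, E, hE, hE'⟩ := admissible hc κ (e := e) hT hr (m := qb.eval n) (by omega) hZ hy
          exact ⟨a, E, hE, fun v hv => ⟨fun a' h => absurd h (by simp), hE' v hv⟩⟩
        · refine ⟨a', ∅, by simp, fun v _ => ⟨fun a'' h => Option.some.inj h, ?_⟩⟩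
          exact hσ y a' hσy _ fun s hs => nw_lt κ e _ (by omega))
      (fun Z S' => by
        obtain ⟨Q, g1, g2, g3⟩ := hqb (join (orc Φ (nw κ n e Z)) S') x
        rw [hxl] at g1 g2
        have htl : ∀ q ∈ Q.image List.tail, q.length ≤ qb.eval n := by
          intro q hq
          obtain ⟨q', hq', rfl⟩ := mem_image.1 hq
          rw [List.length_tail]
          have := g2 q' hq'
          omega
        refine ⟨seen n e (Q.image List.tail), Q.image List.tail,
          (card_seen _ _ _).trans (card_image_le.trans (by omega)), card_image_le.trans (by omega),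
          htl, fun Z' S'' hZ' hS'' => ?_⟩
        rw [g3 _ fun q hq => ?_]
        have h5 := agree_seen hc κ hT Z Z' (fun q hq => (htl q hq).trans (by omega)) hZ'
        rcases q with _ | ⟨a, u⟩
        · rfl
        · have hu : u ∈ Q.image List.tail := mem_image.2 ⟨a :: u, hq, rfl⟩
          cases a
          · exact h5 u hu
          · exact hS'' u hu)
      (fun v => v 0) (fun a => hnum.trans_le (card_side n a))
    refine ⟨nw κ n e (one v), max T n + 1, fun y => if y ∈ P then some (S₀ y) else σ y, by omega,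
      fun s hs => nw_lt κ e _ (by omega), fun s e' he => nw_ne κ _ (Or.inr he), fun y a hya => ?_,
      Or.inr ⟨fun s => ?_, fun y a hya κ'' hκ'' => ?_, fun κ'' hκ'' S' hS' => ⟨x, ?_⟩⟩⟩
    · by_cases hy : y ∈ P
      · simp only [if_pos hy]
        rw [(h1 y hy).2.1 a hya]
      · simp only [if_neg hy]
        exact hya
    · by_cases hs : s = n
      · subst hs
        rw [nw_self]
        exact gd_one s v
      · rw [nw_ne κ _ (Or.inl hs)]
        exact hκ s
    · by_cases hy : y ∈ P
      · simp only [if_pos hy, Option.some.injEq] at hya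
        subst hya
        rw [hr.sep (n := qb.eval n) (fun q hq => orc_congr hc hκ'' (hq.trans (by omega)))
          (h1 y hy).1]
        exact (h1 y hy).2.2
      · simp only [if_neg hy] at hya
        refine hσ y a hya κ'' fun s hs => ?_
        rw [hκ'' s (by omega), nw_lt κ e _ (by omega)]
    · have hag : ∀ q : List Bool, q.length ≤ T →
          orc Φ κ'' q = orc Φ (nw κ n e (one v)) q := fun q hq =>
        orc_congr hc hκ'' (hq.trans ((le_max_left _ _).trans (Nat.le_succ _)))
      have h3 := h2 S' fun y hy => hS' y _ (by simp [hy])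
      have h4 : M.out (join (orc Φ κ'') S') x =
          M.out (join (orc Φ (nw κ n e (one v))) S') x := by
        obtain ⟨Q, _, g2, g3⟩ := hqb (join (orc Φ (nw κ n e (one v))) S') x
        refine g3 _ fun q hq => ?_
        rcases q with _ | ⟨a, u⟩
        · rfl
        · cases a
          · have h5 := g2 _ hq
            rw [hxl, List.length_cons] at h5
            exact hag u (by omega)
          · rfl
      have h5 : x ∈ XL κ'' e ↔ v 0 = true := by
        have h6 : κ'' n = nw κ n e (one v) n := hκ'' n (by omega)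
        show (∃ w, κ'' x.length e (true :: w) = true) ↔ _
        rw [hxl, h6, nw_self]
        constructor
        · rintro ⟨w, hw⟩
          obtain ⟨u, hu1, hu2⟩ := fn_true hw
          unfold one at hu2
          rw [of_decide_eq_true hu2, List.ofFn_succ] at hu1
          exact (List.cons.inj hu1).1.symm
        · intro hv
          refine ⟨List.ofFn fun i => v i.succ, ?_⟩
          have h7 : true :: List.ofFn (fun i => v i.succ) = List.ofFn v := by
            rw [List.ofFn_succ, hv]
          rw [h7, fn_ofFn]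
          simp [one]
      rw [h4, h5]
      intro h6
      apply h3
      rw [Bool.eq_iff_iff, decide_eq_true_iff]
      exact h6.symm

end Pool.Agent.HM13.PC
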