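import Pool.Agent.HM13.PC.Stage
import Pool.Agent.H620R2.GaugeR.Seq

/-!
# The world
-/

set_option autoImplicit false

namespace Pool.Agent.HM13.PC

open Finset Filter Pool.Agent.NPC Pool.Agent.H620R2.Gauge Pool.Agent.TH678.GC
  Pool.Agent.TH678.RS Pool.Agent.Y626.WX Pool.Agent.H622R2 Pool.Agent.H622R2.Exp

theorem poly_adr {β : Type} [TEnc β] (e : ℕ) {f : β → ℕ} {v : β → List Bool} (hf : UPoly f)
    (hv : Poly v) : Poly (fun a => adr (f a) e (v a)) :=
  Poly.cons (NPC.Poly.const false) (Poly.append (TH678.WP.poly_replicate hf true)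
    (Poly.cons (NPC.Poly.const false) (Poly.append (NPC.Poly.const _)
      (Poly.cons (NPC.Poly.const false) hv))))

/-- **The language of the sides is in `UP` and in `coUP`.** -/
theorem up_XL (Φ : Oracle → Oracle) {κ : Cnt} {e : ℕ} (h : ∀ s, Gd s (κ s e)) :
    IsUP (orc Φ κ) (XL κ e) ∧ IsUP (orc Φ κ) (XL κ e)ᶜ := by
  have hx : Poly (fun y => (unpair y).2) := Poly.snd poly_unpair
  have hw : Poly (fun y => (unpair y).1) := Poly.fst poly_unpair
  have key : ∀ (c : Bool) (L : Set (List Bool)),
      (∀ x, x ∈ L ↔ ∃ w, κ x.length e (c :: w) = true) → IsUP (orc Φ κ) L := by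
    intro c L hL
    refine ⟨fun z => [orc Φ κ (adr (unpair z).2.length e (c :: (unpair z).1))], Polynomial.X,
      TH678.WP.isFP_ask' _ (poly_adr e (UPoly.length hx) (Poly.cons (NPC.Poly.const c) hw)),
      fun x => ?_, fun x w w' h1 h2 => ?_⟩
    · rw [hL x]
      refine exists_congr fun w => ?_
      simp only [unpair_pairBits, List.cons.injEq, and_true, orc_adr, Polynomial.eval_X]
      refine ⟨fun h1 => ⟨?_, h1⟩, fun h1 => h1.2⟩
      obtain ⟨v, h2, h3⟩ := h x.length
      have h4 := (h3 _).1 h1
      have h5 := congrArg List.length h4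
      rw [List.length_cons, h2] at h5
      omega
    · simp only [unpair_pairBits, List.cons.injEq, and_true, orc_adr] at h1 h2
      obtain ⟨v, -, h3⟩ := h x.length
      have h4 := ((h3 _).1 h1).trans ((h3 _).1 h2).symm
      exact (List.cons.inj h4).2
  refine ⟨key true _ fun x => Iff.rfl, key false _ fun x => ?_⟩
  obtain ⟨v, h2, h3⟩ := h x.length
  obtain ⟨c, w, rfl⟩ : ∃ c w, v = c :: w := by
    rcases v with _ | ⟨c, w⟩
    · simp at h2
    · exact ⟨c, w, rfl⟩
  show (¬ ∃ w, κ x.length e (true :: w) = true) ↔ _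
  simp only [h3, List.cons.injEq]
  cases c <;> simp

theorem countable_cls : Countable Cls := by
  have h1 : Countable (Polynomial ℕ) := CC.poly_countable
  let f : Cls → (Alg × Alg × Polynomial ℕ × Polynomial ℕ) ⊕
      (Alg × Alg × Polynomial ℕ × Polynomial ℕ) ⊕ (Alg × Polynomial ℕ) := fun c =>
    match c with
    | .np M₁ M₂ p₁ p₂ => Sum.inl (M₁, M₂, p₁, p₂)
    | .co M₁ M₂ p₁ p₂ => Sum.inr (Sum.inl (M₁, M₂, p₁, p₂))
    | .up M p => Sum.inr (Sum.inr (M, p))
  have hf : Function.Injective f := by
    intro c c' h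
    cases c <;> cases c' <;> simp_all [f]
  exact hf.countable

/-- a state: contents, level, partial separators -/
structure State : Type where
  /-- the contents -/
  κ : Cnt
  /-- the levels below are fixed -/
  N : ℕ
  /-- the parts of the separators that are fixed -/
  σ : ℕ → List Bool → Option Bool

/-- the promise is broken for ever -/
def State.Broken (Φ : Oracle → Oracle) (p : State) (c : Cls) : Prop :=
  ∀ κ'' : Cnt, (∀ s < p.N, κ'' s = p.κ s) → ¬ c.Hold (orc Φ κ'')

/-- the blocks and the separator number `e` are in order -/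
def State.Good (Φ : Oracle → Oracle) (p : State) (c : Cls) (e : ℕ) : Prop :=
  (∀ s, Gd s (p.κ s e)) ∧
    ∀ y a, p.σ e y = some a → ∀ κ'' : Cnt, (∀ s < p.N, κ'' s = p.κ s) → c.Sep (orc Φ κ'') y a

/-- extension of states -/
def State.Ext (p q : State) : Prop :=
  p.N ≤ q.N ∧ (∀ s < p.N, q.κ s = p.κ s) ∧ ∀ e y a, p.σ e y = some a → q.σ e y = some a

theorem State.Broken.mono {Φ : Oracle → Oracle} {p q : State} {c : Cls} (h : p.Broken Φ c)
    (hpq : p.Ext q) : q.Broken Φ c := fun κ'' hκ'' => h κ'' fun s hs =>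
  (hκ'' s (lt_of_lt_of_le hs hpq.1)).trans (hpq.2.1 s hs)

theorem State.Ext.trans' {p q r : State} (h₁ : p.Ext q) (h₂ : q.Ext r) : p.Ext r :=
  ⟨h₁.1.trans h₂.1, fun s hs => (h₂.2.1 s (lt_of_lt_of_le hs h₁.1)).trans (h₁.2.1 s hs),
    fun e y a h => h₂.2.2 e y a (h₁.2.2 e y a h)⟩

/-- **The world, for presentations.** -/
theorem exists_world {α : ℕ → ℕ} (hα : Monotone α) (hα' : Tendsto α atTop atTop) :
    ∃ A : Oracle, (∀ L, IsPSPACE A L → InTime α A L) ∧
      ∀ c : Cls, c.Hold A → ∃ X, IsUP A X ∧ IsUP A Xᶜ ∧ ∃ S : Oracle,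
        (∀ y, c.Sep A y (S y)) ∧ ∀ M : Alg, ∃ x, ¬ (x ∈ X ↔ M.out (join A S) x = some [true]) := by
  classical
  obtain ⟨g, hg⟩ := CC.exists_enum
  obtain ⟨S, Φ, hc⟩ := exists_cp g (bt α)
  have h1 := countable_cls
  have h2 : Nonempty Alg := ⟨⟨fun _ => [], CC.const_polyTime _, 0⟩⟩
  have h3 : Nonempty Cls := ⟨Cls.up h2.some 0⟩
  obtain ⟨cl, hcl⟩ := exists_surjective_nat Cls
  obtain ⟨rq, hrq⟩ := exists_surjective_nat (ℕ × Alg)
  let Inv : State → Prop := fun p => ∀ e, p.Good Φ (cl e) e ∨ p.Broken Φ (cl e)
  let p₀ : State := ⟨fun s _ v => decide (v = List.replicate (s + 1) false), 0, fun _ _ => none⟩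
  have hp₀ : Inv p₀ := fun e => Or.inl ⟨fun s => ⟨List.replicate (s + 1) false, by simp,
    fun v' => by simp [p₀]⟩, fun y a h => absurd h (by simp [p₀])⟩
  -- the property obtained at stage `j`
  let Q : ℕ → {p : State // Inv p} → Prop := fun j p => j < p.1.N ∧
    (p.1.Broken Φ (cl (rq j).1) ∨
      ∀ κ'' : Cnt, (∀ s < p.1.N, κ'' s = p.1.κ s) → ∀ S' : Oracle,
        (∀ y a, p.1.σ (rq j).1 y = some a → S' y = a) →
        ∃ x, ¬ (x ∈ XL κ'' (rq j).1 ↔ (rq j).2.out (join (orc Φ κ'') S') x = some [true]))
  obtain ⟨st, hst, hQ⟩ := seq_ext (St := {p : State // Inv p}) (fun p q => p.1.Ext q.1)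
    (fun p => ⟨le_rfl, fun _ _ => rfl, fun _ _ _ h => h⟩) (fun p q r h₁ h₂ => h₁.trans' h₂) Q
    ⟨p₀, hp₀⟩ (by
      rintro j ⟨p, hp⟩
      rcases hp (rq j).1 with h | h
      · obtain ⟨κ', N', σ', a1, a2, a3, a4, a5⟩ := stage hα hα' hc (cl (rq j).1) (rq j).2
          (rq j).1 p.N (max p.N j) (le_max_left _ _) p.κ (p.σ (rq j).1) h.1 h.2
        set q : State := ⟨κ', N', Function.update p.σ (rq j).1 σ'⟩ with hq
        have hpq : p.Ext q := by
          refine ⟨by show p.N ≤ N'; omega, a2, fun e y a h' => ?_⟩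
          show Function.update p.σ (rq j).1 σ' e y = some a
          by_cases he : e = (rq j).1
          · subst he
            rw [Function.update_self]
            exact a4 y a h'
          · rw [Function.update_of_ne he]
            exact h'
        have hqI : Inv q := by
          intro e
          by_cases he : e = (rq j).1
          · subst he
            rcases a5 with a5 | ⟨a5, a6, _⟩
            · exact Or.inr a5
            · refine Or.inl ⟨a5, fun y a h' => a6 y a ?_⟩
              have h'' : Function.update p.σ (rq j).1 σ' (rq j).1 y = some a := h'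
              rwa [Function.update_self] at h''
          · rcases hp e with h' | h'
            · refine Or.inl ⟨fun s => ?_, fun y a h'' κ'' hκ'' => ?_⟩
              · show Gd s (κ' s e)
                rw [a3 s e he]
                exact h'.1 s
              · have h3 : Function.update p.σ (rq j).1 σ' e y = some a := h''
                rw [Function.update_of_ne he] at h3
                exact h'.2 y a h3 κ'' fun s hs =>
                  (hκ'' s (lt_of_lt_of_le hs hpq.1)).trans (a2 s hs)
            · exact Or.inr (h'.mono hpq)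
        refine ⟨⟨q, hqI⟩, hpq, ?_, ?_⟩
        · show j < N'
          omega
        · rcases a5 with a5 | ⟨_, _, a5⟩
          · exact Or.inl a5
          · refine Or.inr fun κ'' hκ'' S' hS' => a5 κ'' hκ'' S' fun y a h' => hS' y a ?_
            show Function.update p.σ (rq j).1 σ' (rq j).1 y = some a
            rw [Function.update_self]
            exact h'
      · set q : State := ⟨p.κ, max p.N j + 1, p.σ⟩ with hq
        have hpq : p.Ext q := ⟨by show p.N ≤ max p.N j + 1; omega, fun _ _ => rfl,
          fun _ _ _ h' => h'⟩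
        have hqI : Inv q := by
          intro e
          rcases hp e with h' | h'
          · refine Or.inl ⟨h'.1, fun y a h'' κ'' hκ'' => h'.2 y a h'' κ'' fun s hs =>
              hκ'' s (lt_of_lt_of_le hs hpq.1)⟩
          · exact Or.inr (h'.mono hpq)
        refine ⟨⟨q, hqI⟩, hpq, ?_, Or.inl (h.mono hpq)⟩
        show j < max p.N j + 1
        omega)
  -- the limit
  have hNj : ∀ j, j < (st (j + 1)).1.N := fun j => (hQ j).1
  set κ : Cnt := fun s => (st (s + 1)).1.κ s with hκ
  have hlim : ∀ j, ∀ s < (st j).1.N, κ s = (st j).1.κ s := by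
    intro j s hs
    have h6 := hNj s
    rcases le_total (s + 1) j with h | h
    · exact ((hst _ _ h).2.1 s h6).symm
    · exact (hst _ _ h).2.1 s hs
  refine ⟨orc Φ κ, fun L hL => time_coded hg hα hc _ hL, fun c hhold => ?_⟩
  obtain ⟨e, rfl⟩ := hcl c
  have hnb : ∀ j, ¬ (st j).1.Broken Φ (cl e) := fun j h => h κ (hlim j) hhold
  have hgood : ∀ j, (st j).1.Good Φ (cl e) e := fun j => ((st j).2 e).resolve_right (hnb j)
  have hgd : ∀ s, Gd s (κ s e) := fun s => (hgood (s + 1)).1 s
  obtain ⟨u1, u2⟩ := up_XL Φ hgd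
  choose S₁ hS₁ using fun y => Cls.exists_sep hhold y
  have hS : ∀ y, ∃ a : Bool, (cl e).Sep (orc Φ κ) y a ∧
      ∀ j b, (st j).1.σ e y = some b → a = b := by
    intro y
    by_cases h : ∃ j b, (st j).1.σ e y = some b
    · obtain ⟨j, b, hb⟩ := h
      refine ⟨b, (hgood j).2 y b hb κ (hlim j), fun j' b' hb' => ?_⟩
      rcases le_total j j' with h' | h'
      · exact Option.some.inj (((hst _ _ h').2.2 e y b hb).symm.trans hb')
      · exact Option.some.inj (hb.symm.trans ((hst _ _ h').2.2 e y b' hb'))
    · push Not at h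
      exact ⟨S₁ y, hS₁ y, fun j b hb => absurd hb (h j b)⟩
  choose S' hS'1 hS'2 using hS
  refine ⟨XL κ e, u1, u2, S', hS'1, fun M => ?_⟩
  obtain ⟨j, hj⟩ := hrq (e, M)
  have h4 := (hQ j).2
  rw [hj] at h4
  exact (h4.resolve_left (hnb (j + 1))) κ (hlim (j + 1)) S' fun y a h => hS'2 y (j + 1) a h

/-! ### Many-one reductions -/

/-- the algorithm with the additional oracle -/
noncomputable def liftAlg (M : Alg) : Alg where
  D := fun y => if (M.D y).head? = some false then false :: M.D y else M.D y
  poly := polyTime_of_poly_list (Poly.ite (Poly.decide_eq (Poly.head? (poly_of_polyTime M.poly))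
    (NPC.Poly.const _)) (Poly.cons (NPC.Poly.const false) (poly_of_polyTime M.poly))
    (poly_of_polyTime M.poly))
  p := M.p

theorem lift_run (M : Alg) (A S : Oracle) (x : List Bool) : ∀ (n : ℕ) (a : List Bool),
    (liftAlg M).run (join A S) x n a = M.run A x n a := by
  intro n
  induction n with
  | zero => intro a; rfl
  | succ n ih =>
    intro a
    have hD : (liftAlg M).D (pairBits x a) = if (M.D (pairBits x a)).head? = some false then
        false :: M.D (pairBits x a) else M.D (pairBits x a) := rfl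
    rcases hq : M.D (pairBits x a) with _ | ⟨c, q⟩
    · rw [hq] at hD
      simp only [Alg.run, hD, hq]
      simp
    · cases c with
      | true =>
        rw [hq] at hD
        simp only [Alg.run, hD, hq]
        simp
      | false =>
        rw [hq] at hD
        simp only [Alg.run, hD, hq]
        simp only [List.head?_cons, if_true]
        exact ih _

/-- the algorithm which asks `S` -/
noncomputable def askAlg : Alg where
  D := fun y => if (unpair y).2 = [] then false :: true :: (unpair y).1 else
    true :: (unpair y).2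
  poly := polyTime_of_poly_list (Poly.ite (Poly.decide_eq (Poly.snd poly_unpair)
    (NPC.Poly.const _)) (Poly.cons (NPC.Poly.const false) (Poly.cons (NPC.Poly.const true)
      (Poly.fst poly_unpair))) (Poly.cons (NPC.Poly.const true) (Poly.snd poly_unpair)))
  p := 2

theorem ask_out (A S : Oracle) (x : List Bool) :
    askAlg.out (join A S) x = some [S x] := by
  unfold Alg.out
  have h : askAlg.p.eval x.length = 2 := by simp [askAlg]
  rw [h]
  have h1 : askAlg.D (pairBits x []) = false :: true :: x := by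
    simp [askAlg, unpair_pairBits]
  have h2 : ∀ b, askAlg.D (pairBits x [b]) = [true, b] := by
    intro b
    simp [askAlg, unpair_pairBits]
  simp only [Alg.run, h1, List.nil_append, h2]
  rfl

/-- **Many-one reductions are Turing reductions.** -/
theorem isP_of_map {A S : Oracle} {X C D : Set (List Bool)} {f : List Bool → List Bool}
    (hf : IsFP A f) (h1 : ∀ x ∈ X, f x ∈ C) (h2 : ∀ x ∈ Xᶜ, f x ∈ D)
    (hC : ∀ y ∈ C, S y = true) (hD : ∀ y ∈ D, S y = false) : IsP (join A S) X := by
  obtain ⟨M, hM⟩ := hf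
  have hφ : Poly (fun p : List Bool × List Bool => p.2) := Poly.snd Poly.id
  have hψ : Poly (fun p : List Bool × List Bool × List Bool => p.2.2) :=
    Poly.snd (Poly.snd Poly.id)
  refine ⟨fun x => [S (f x)], ⟨A2.seqAlg (liftAlg M) askAlg hφ hψ (M.p + 2), fun x => ?_⟩,
    fun x => ?_⟩
  · have h3 : (liftAlg M).run (join A S) x (M.p.eval x.length) [] = some (f x) := by
      rw [lift_run]
      exact hM x
    have h4 : askAlg.run (join A S) (f x) 2 [] = some [S (f x)] := by
      have := ask_out A S (f x)
      unfold Alg.out at this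
      have h : askAlg.p.eval (f x).length = 2 := by simp [askAlg]
      rwa [h] at this
    exact A2.seq_run1 (liftAlg M) askAlg hφ hψ (M.p + 2) (join A S) x (f x) _ 2 h4
      (M.p.eval x.length) [] rfl h3 ((M.p + 2).eval x.length) (by simp)
  · constructor
    · intro hx
      show [S (f x)] = [true]
      rw [hC _ (h1 x hx)]
    · intro h7
      by_contra hx
      have h8 : [S (f x)] = [true] := h7
      rw [hD _ (h2 x hx)] at h8
      simp at h8

end Pool.Agent.HM13.PC
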